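import Pool.Agent.Helper60.MixedProof

/-!
There is a finite group whose mixed identities (identities with all elements of the group as
constants) have no finite basis.
-/

namespace Pool.Agent.Results.MP_fd3e90_al.MixedIdentities

open Pool.Agent.Helper60.Mixed

theorem result : ∃ (G : Type) (_ : Group G) (_ : Finite G), ¬ MixedFinitelyBased G :=
  ⟨Gam.GG, inferInstance, inferInstance, Gam.not_finitelyBased⟩

end Pool.Agent.Results.MP_fd3e90_al.MixedIdentities
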