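import Mathlib

/-!
# A finite group whose mixed identities have no finite basis

Let `V = F_3 ^ 2`, let `C = {1, -1}` act on `V` by inversion, and let `A = V : C`
(of order 18) act on `V` by affine maps, hence on `P = F_2 ^ V` (functions on `V`), preserving
the form `pair p q = ∑ p x * q x`. The group is `GG = (P × P × F_2) : A` with
`(p, q, z, a) (p', q', z', a') = (p + a p', q + a q', z + z' + pair p (a q'), a a')`.

Let `NN` be the sum of the translations by `V2 = {(0, w)}` on `P`; it commutes with `A` and is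
self-adjoint. For each `r` let `Y = F_2 ^ r` and let `algH r` consist of the
`(p, q : Y → P, z : F_2, a : Y → A)` such that the `C`-component of `a y` is an affine function
of `y`; multiplication is as above, pointwise in `y`, with cocycle
`∑ y, pair (NN (p y)) (a y • q' y)`. The constant `c_g`, `g = (p, q, z, a)`, is interpreted as
`(const p, const q, 0, const a)`.

* `claim1`: `algH r` satisfies every mixed identity of `GG` in fewer than `r` variables.
  The `z`-component of the difference of the two sides is a sum over `y` of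
  `F_1 (a y)`, where, for identities of `GG`, the function `F_1 (v, s)` does not depend on the
  `V`-components `v` (`DD_update`), and fewer than `r` affine functions on `F_2 ^ r` have a common
  nonzero period.
* `bad_in_G`, `bad_not_in_H`: with `u_0 = v = (1, 0)`, `u_{i+1} = (u_i · x_i u_i x_i⁻¹)⁻¹`,
  the identity `(u_r d u_r⁻¹) e ≈ e (u_r d u_r⁻¹)` holds in `GG` and fails in `algH r`, for
  suitable constants `d` and `e`.
-/

namespace Pool.Agent.Results.MP_fd3e90_al.MixedNoFiniteBasis

/-- Terms of the signature `(·, ⁻¹, 1, (c_g)_{g ∈ G})` in the variables `x_0, x_1, x_2, …`. -/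
inductive MixedTerm (G : Type) : Type
  | var (n : ℕ) : MixedTerm G
  | const (g : G) : MixedTerm G
  | one : MixedTerm G
  | mul (s t : MixedTerm G) : MixedTerm G
  | inv (t : MixedTerm G) : MixedTerm G

/-- An arbitrary algebraic system in the signature `(·, ⁻¹, 1, (c_g)_{g ∈ G})`. -/
structure MixedAlgebra (G : Type) where
  carrier : Type
  mul : carrier → carrier → carrier
  inv : carrier → carrier
  one : carrier
  const : G → carrier

/-- The value of a term in an algebra under an assignment of the variables. -/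
def eval {G : Type} (M : MixedAlgebra G) (x : ℕ → M.carrier) : MixedTerm G → M.carrier
  | .var n => x n
  | .const g => M.const g
  | .one => M.one
  | .mul s t => M.mul (eval M x s) (eval M x t)
  | .inv t => M.inv (eval M x t)

/-- `M` satisfies the identity `u ≈ v`. -/
def Satisfies {G : Type} (M : MixedAlgebra G) (e : MixedTerm G × MixedTerm G) : Prop :=
  ∀ x : ℕ → M.carrier, eval M x e.1 = eval M x e.2

/-- The algebraic system `G*`: the group `G` with every element `g` named by `c_g`. -/
def groupStar (G : Type) [Group G] : MixedAlgebra G where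
  carrier := G
  mul := fun a b => a * b
  inv := fun a => a⁻¹
  one := 1
  const := fun g => g

/-- Mixed identities of `G` (identities of `G*`). -/
def IsMixedIdentity (G : Type) [Group G] (e : MixedTerm G × MixedTerm G) : Prop :=
  Satisfies (groupStar G) e

/-- `e` is an equational consequence of `S`: every algebra of the enlarged signature which
satisfies all identities in `S` satisfies `e`. -/
def IsConsequence {G : Type} (S : Set (MixedTerm G × MixedTerm G))
    (e : MixedTerm G × MixedTerm G) : Prop :=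
  ∀ M : MixedAlgebra G, (∀ e' ∈ S, Satisfies M e') → Satisfies M e

/-- The mixed identities of `G` are finitely based. -/
def MixedFinitelyBased (G : Type) [Group G] : Prop :=
  ∃ S : Set (MixedTerm G × MixedTerm G), S.Finite ∧ (∀ e ∈ S, IsMixedIdentity G e) ∧
    ∀ e, IsMixedIdentity G e → IsConsequence S e

/-! ### The group -/

abbrev V := ZMod 3 × ZMod 3
abbrev P := V → ZMod 2

def sg (c : ZMod 2) : ZMod 3 := if c = 0 then 1 else -1

lemma sg_add : ∀ c d, sg (c + d) = sg c * sg d := by decide
lemma sg_mul_self : ∀ c, sg c * sg c = 1 := by decide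
lemma sg_zero : sg 0 = 1 := by decide

def act (v : V) (c : ZMod 2) (p : P) : P := fun x => p (sg c • (x - v))

lemma act_act (v u : V) (c d : ZMod 2) (p : P) :
    act v c (act u d p) = act (v + sg c • u) (c + d) p := by
  funext x
  simp only [act]
  congr 1
  rw [sg_add, mul_comm, mul_smul]
  congr 1
  rw [← sub_sub, smul_sub (sg c) (x - v), smul_smul, sg_mul_self, one_smul]

lemma act_add (v : V) (c : ZMod 2) (p q : P) : act v c (p + q) = act v c p + act v c q := rfl

lemma act_zero (v : V) (c : ZMod 2) : act v c 0 = 0 := rfl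

lemma act_one (p : P) : act 0 0 p = p := by
  funext x
  simp [act, sg_zero]

def pair (p q : P) : ZMod 2 := ∑ x, p x * q x

lemma pair_add_left (p p' q : P) : pair (p + p') q = pair p q + pair p' q := by
  simp [pair, add_mul, Finset.sum_add_distrib]

lemma pair_add_right (p q q' : P) : pair p (q + q') = pair p q + pair p q' := by
  simp [pair, mul_add, Finset.sum_add_distrib]

lemma pair_zero_left (q : P) : pair 0 q = 0 := by simp [pair]

lemma pair_zero_right (q : P) : pair q 0 = 0 := by simp [pair]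

def affEquiv (v : V) (c : ZMod 2) : V ≃ V where
  toFun x := sg c • (x - v)
  invFun x := sg c • x + v
  left_inv x := by
    simp only []
    rw [smul_smul, sg_mul_self, one_smul, sub_add_cancel]
  right_inv x := by
    simp only []
    rw [add_sub_cancel_right, smul_smul, sg_mul_self, one_smul]

lemma pair_act (v : V) (c : ZMod 2) (p q : P) : pair (act v c p) (act v c q) = pair p q := by
  unfold pair act
  exact Fintype.sum_equiv (affEquiv v c) _ _ (fun x => rfl)

/-- The carrier of the group (order `2^19 * 18`). -/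
@[ext]
structure GG where
  p : P
  q : P
  z : ZMod 2
  v : V
  c : ZMod 2

instance : Finite GG :=
  Finite.of_injective (fun g : GG => (g.p, g.q, g.z, g.v, g.c)) (by
    intro a b h
    simp only [Prod.mk.injEq] at h
    obtain ⟨h1, h2, h3, h4, h5⟩ := h
    exact GG.ext h1 h2 h3 h4 h5)

instance : Mul GG :=
  ⟨fun g h => ⟨g.p + act g.v g.c h.p, g.q + act g.v g.c h.q,
    g.z + h.z + pair g.p (act g.v g.c h.q), g.v + sg g.c • h.v, g.c + h.c⟩⟩

instance : One GG := ⟨⟨0, 0, 0, 0, 0⟩⟩

instance : Inv GG :=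
  ⟨fun g => ⟨act (-(sg g.c • g.v)) g.c g.p, act (-(sg g.c • g.v)) g.c g.q,
    g.z + pair g.p g.q, -(sg g.c • g.v), g.c⟩⟩

lemma GG.mul_def (g h : GG) : g * h = ⟨g.p + act g.v g.c h.p, g.q + act g.v g.c h.q,
    g.z + h.z + pair g.p (act g.v g.c h.q), g.v + sg g.c • h.v, g.c + h.c⟩ := rfl

lemma GG.one_def : (1 : GG) = ⟨0, 0, 0, 0, 0⟩ := rfl

lemma GG.inv_def (g : GG) : g⁻¹ = ⟨act (-(sg g.c • g.v)) g.c g.p, act (-(sg g.c • g.v)) g.c g.q,
    g.z + pair g.p g.q, -(sg g.c • g.v), g.c⟩ := rfl

lemma two_eq (a : ZMod 2) : a + a = 0 := CharTwo.add_self_eq_zero a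

lemma P_two_eq (a : P) : a + a = 0 := by
  funext x
  exact two_eq (a x)

instance : Group GG :=
  Group.ofLeftAxioms
    (by
      intro a b c
      simp only [GG.mul_def, GG.mk.injEq]
      refine ⟨?_, ?_, ?_, ?_, ?_⟩
      · rw [act_add, act_act, add_assoc]
      · rw [act_add, act_act, add_assoc]
      · rw [pair_add_left, act_add, pair_add_right, act_act, ← act_act a.v, pair_act]
        ring
      · rw [smul_add, smul_smul, sg_add, add_assoc]
      · rw [add_assoc])
    (by
      intro a
      simp only [GG.mul_def, GG.one_def, act_one, pair_zero_left, sg_zero, one_smul, zero_add,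
        add_zero])
    (by
      intro a
      simp only [GG.mul_def, GG.inv_def, GG.one_def, GG.mk.injEq]
      refine ⟨P_two_eq _, P_two_eq _, ?_, ?_, two_eq _⟩
      · rw [pair_act]
        have h1 := two_eq a.z
        have h2 := two_eq (pair a.p a.q)
        linear_combination h1 + h2
      · simp)


/-! ### Evaluation of terms, split into components -/

abbrev T := MixedTerm GG

/-- the `c`-component -/
def cE (s : ℕ → ZMod 2) : T → ZMod 2
  | .var n => s n
  | .const g => g.c
  | .one => 0
  | .mul a b => cE s a + cE s b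
  | .inv a => cE s a

/-- the `v`-component -/
def vE (s : ℕ → ZMod 2) (v : ℕ → V) : T → V
  | .var n => v n
  | .const g => g.v
  | .one => 0
  | .mul a b => vE s v a + sg (cE s a) • vE s v b
  | .inv a => -(sg (cE s a) • vE s v a)

/-- the `p`-component -/
def pE (s : ℕ → ZMod 2) (v : ℕ → V) (X : ℕ → P) (X0 : GG → P) : T → P
  | .var n => X n
  | .const g => X0 g
  | .one => 0
  | .mul a b => pE s v X X0 a + act (vE s v a) (cE s a) (pE s v X X0 b)
  | .inv a => act (-(sg (cE s a) • vE s v a)) (cE s a) (pE s v X X0 a)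

/-- the bilinear part of the `z`-component, for the form `pair (N _) _` -/
def zE (N : P → P) (s : ℕ → ZMod 2) (v : ℕ → V) (X : ℕ → P) (X0 : GG → P)
    (Y : ℕ → P) (Y0 : GG → P) : T → ZMod 2
  | .var _ => 0
  | .const _ => 0
  | .one => 0
  | .mul a b => zE N s v X X0 Y Y0 a + zE N s v X X0 Y Y0 b +
      pair (N (pE s v X X0 a)) (act (vE s v a) (cE s a) (pE s v Y Y0 b))
  | .inv a => zE N s v X X0 Y Y0 a + pair (N (pE s v X X0 a)) (pE s v Y Y0 a)

/-- the linear part of the `z`-component -/
def nE (Z : ℕ → ZMod 2) (Z0 : GG → ZMod 2) : T → ZMod 2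
  | .var n => Z n
  | .const g => Z0 g
  | .one => 0
  | .mul a b => nE Z Z0 a + nE Z Z0 b
  | .inv a => nE Z Z0 a

lemma eval_groupStar (x : ℕ → GG) (t : T) :
    eval (groupStar GG) x t =
      (⟨pE (fun n => (x n).c) (fun n => (x n).v) (fun n => (x n).p) GG.p t,
        pE (fun n => (x n).c) (fun n => (x n).v) (fun n => (x n).q) GG.q t,
        zE id (fun n => (x n).c) (fun n => (x n).v) (fun n => (x n).p) GG.p
          (fun n => (x n).q) GG.q t + nE (fun n => (x n).z) GG.z t,
        vE (fun n => (x n).c) (fun n => (x n).v) t,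
        cE (fun n => (x n).c) t⟩ : GG) := by
  induction t with
  | var n =>
    refine GG.ext rfl rfl ?_ rfl rfl
    simp [eval, zE, nE]
  | const g => simp [eval, pE, zE, nE, vE, cE, groupStar]
  | one => simp [eval, pE, zE, nE, vE, cE, groupStar, GG.one_def]
  | mul a b iha ihb =>
    simp only [eval, iha, ihb]
    simp only [groupStar, GG.mul_def, pE, zE, nE, vE, cE, id, GG.mk.injEq, true_and, and_true]
    ring
  | inv a iha =>
    simp only [eval, iha]
    simp only [groupStar, GG.inv_def, pE, zE, nE, vE, cE, id, GG.mk.injEq, true_and, and_true]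
    ring

/-! ### Additivity -/

lemma pE_add (s : ℕ → ZMod 2) (v : ℕ → V) (X X' : ℕ → P) (X0 X0' : GG → P) (t : T) :
    pE s v (X + X') (X0 + X0') t = pE s v X X0 t + pE s v X' X0' t := by
  induction t with
  | var n => simp [pE]
  | const g => simp [pE]
  | one => simp [pE]
  | mul a b iha ihb =>
    simp only [pE, iha, ihb, act_add]
    abel
  | inv a iha => simp only [pE, iha, act_add]

lemma zE_add_left (N : P → P) (hN : ∀ p q, N (p + q) = N p + N q)
    (s : ℕ → ZMod 2) (v : ℕ → V) (X X' : ℕ → P) (X0 X0' : GG → P)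
    (Y : ℕ → P) (Y0 : GG → P) (t : T) :
    zE N s v (X + X') (X0 + X0') Y Y0 t = zE N s v X X0 Y Y0 t + zE N s v X' X0' Y Y0 t := by
  induction t with
  | var n => simp [zE]
  | const g => simp [zE]
  | one => simp [zE]
  | mul a b iha ihb =>
    simp only [zE, iha, ihb, pE_add, hN, pair_add_left]
    ring
  | inv a iha =>
    simp only [zE, iha, pE_add, hN, pair_add_left]
    ring

lemma zE_add_right (N : P → P)
    (s : ℕ → ZMod 2) (v : ℕ → V) (X : ℕ → P) (X0 : GG → P)
    (Y Y' : ℕ → P) (Y0 Y0' : GG → P) (t : T) :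
    zE N s v X X0 (Y + Y') (Y0 + Y0') t = zE N s v X X0 Y Y0 t + zE N s v X X0 Y' Y0' t := by
  induction t with
  | var n => simp [zE]
  | const g => simp [zE]
  | one => simp [zE]
  | mul a b iha ihb =>
    simp only [zE, iha, ihb, pE_add, act_add, pair_add_right]
    ring
  | inv a iha =>
    simp only [zE, iha, pE_add, pair_add_right]
    ring

lemma nE_add (Z Z' : ℕ → ZMod 2) (Z0 Z0' : GG → ZMod 2) (t : T) :
    nE (Z + Z') (Z0 + Z0') t = nE Z Z0 t + nE Z' Z0' t := by
  induction t with
  | var n => simp [nE]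
  | const g => simp [nE]
  | one => simp [nE]
  | mul a b iha ihb =>
    simp only [nE, iha, ihb]
    ring
  | inv a iha => simp only [nE, iha]

/-! ### The operator `N` -/

def NN (p : P) : P := fun x => ∑ w : ZMod 3, p (x - (0, w))

lemma NN_eq (p : P) : NN p = ∑ w : ZMod 3, act (0, w) 0 p := by
  funext x
  simp [NN, act, sg_zero, Finset.sum_apply]

lemma NN_add (p q : P) : NN (p + q) = NN p + NN q := by
  funext x
  simp [NN, Finset.sum_add_distrib]

def sgEquiv (κ : ZMod 3) (h : κ * κ = 1) : ZMod 3 ≃ ZMod 3 where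
  toFun x := κ * x
  invFun x := κ * x
  left_inv x := by
    simp only []
    rw [← mul_assoc, h, one_mul]
  right_inv x := by
    simp only []
    rw [← mul_assoc, h, one_mul]

lemma NN_act (v : V) (c : ZMod 2) (p : P) : NN (act v c p) = act v c (NN p) := by
  funext x
  simp only [NN, act]
  refine Fintype.sum_equiv (sgEquiv (sg c) (sg_mul_self c)) _ _ (fun w => ?_)
  congr 1
  simp only [sgEquiv, Equiv.coe_fn_mk]
  ext
  · simp
  · simp
    ring

lemma pair_NN (p q : P) : pair (NN p) q = pair p (NN q) := by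
  have h1 : pair (NN p) q = ∑ w : ZMod 3, pair (act (0, w) 0 p) q := by
    simp only [pair, NN, act, sg_zero, one_smul, Finset.sum_mul]
    rw [Finset.sum_comm]
  have h2 : pair p (NN q) = ∑ w : ZMod 3, pair p (act (0, w) 0 q) := by
    simp only [pair, NN, act, sg_zero, one_smul, Finset.mul_sum]
    rw [Finset.sum_comm]
  rw [h1, h2]
  refine Fintype.sum_equiv (Equiv.neg (ZMod 3)) _ _ (fun w => ?_)
  rw [← pair_act (0, -w) 0 (act (0, w) 0 p) q, act_act]
  have h3 : ((0, -w) : V) + sg 0 • ((0, w) : V) = 0 := by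
    simp [sg_zero]
  rw [h3, add_zero, act_one, Equiv.neg_apply]

lemma pE_NN (s : ℕ → ZMod 2) (v : ℕ → V) (X : ℕ → P) (X0 : GG → P) (t : T) :
    pE s v (fun n => NN (X n)) (fun g => NN (X0 g)) t = NN (pE s v X X0 t) := by
  induction t with
  | var n => simp [pE]
  | const g => simp [pE]
  | one =>
    simp only [pE]
    funext x
    simp [NN]
  | mul a b iha ihb => simp only [pE, iha, ihb, NN_add, NN_act]
  | inv a iha => simp only [pE, iha, NN_act]

lemma zE_NN_left (s : ℕ → ZMod 2) (v : ℕ → V) (X : ℕ → P) (X0 : GG → P)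
    (Y : ℕ → P) (Y0 : GG → P) (t : T) :
    zE NN s v X X0 Y Y0 t = zE id s v (fun n => NN (X n)) (fun g => NN (X0 g)) Y Y0 t := by
  induction t with
  | var n => simp [zE]
  | const g => simp [zE]
  | one => simp [zE]
  | mul a b iha ihb => simp only [zE, iha, ihb, pE_NN, id]
  | inv a iha => simp only [zE, iha, pE_NN, id]

lemma zE_NN_right (s : ℕ → ZMod 2) (v : ℕ → V) (X : ℕ → P) (X0 : GG → P)
    (Y : ℕ → P) (Y0 : GG → P) (t : T) :
    zE NN s v X X0 Y Y0 t = zE id s v X X0 (fun n => NN (Y n)) (fun g => NN (Y0 g)) t := by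
  induction t with
  | var n => simp [zE]
  | const g => simp [zE]
  | one => simp [zE]
  | mul a b iha ihb => simp only [zE, iha, ihb, pE_NN, id, pair_NN, NN_act]
  | inv a iha => simp only [zE, iha, pE_NN, id, pair_NN]

/-! ### The algebras `H_r` -/

abbrev YY (r : ℕ) := Fin r → ZMod 2

def cval {r : ℕ} (e : ZMod 2) (l : YY r) (y : YY r) : ZMod 2 := e + ∑ j, l j * y j

lemma cval_add {r : ℕ} (e e' : ZMod 2) (l l' : YY r) (y : YY r) :
    cval (e + e') (l + l') y = cval e l y + cval e' l' y := by
  simp only [cval, Pi.add_apply, add_mul, Finset.sum_add_distrib]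
  ring

@[ext]
structure HH (r : ℕ) where
  p : YY r → P
  q : YY r → P
  z : ZMod 2
  v : YY r → V
  e : ZMod 2
  l : YY r

def HH.c {r : ℕ} (g : HH r) (y : YY r) : ZMod 2 := cval g.e g.l y

def algH (r : ℕ) : MixedAlgebra GG where
  carrier := HH r
  mul := fun g h => ⟨fun y => g.p y + act (g.v y) (g.c y) (h.p y),
    fun y => g.q y + act (g.v y) (g.c y) (h.q y),
    g.z + h.z + ∑ y, pair (NN (g.p y)) (act (g.v y) (g.c y) (h.q y)),
    fun y => g.v y + sg (g.c y) • h.v y, g.e + h.e, g.l + h.l⟩
  inv := fun g => ⟨fun y => act (-(sg (g.c y) • g.v y)) (g.c y) (g.p y),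
    fun y => act (-(sg (g.c y) • g.v y)) (g.c y) (g.q y),
    g.z + ∑ y, pair (NN (g.p y)) (g.q y), fun y => -(sg (g.c y) • g.v y), g.e, g.l⟩
  one := ⟨0, 0, 0, 0, 0, 0⟩
  const := fun g => ⟨fun _ => g.p, fun _ => g.q, 0, fun _ => g.v, g.c, 0⟩

lemma eval_algH_c {r : ℕ} (x : ℕ → HH r) (t : T) (y : YY r) :
    (eval (algH r) x t : HH r).c y = cE (fun n => (x n).c y) t := by
  induction t with
  | var n => simp [eval, cE]
  | const g => simp [eval, cE, algH, HH.c, cval]
  | one => simp [eval, cE, algH, HH.c, cval]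
  | mul a b iha ihb =>
    simp only [cE, ← iha, ← ihb]
    simp only [eval, algH, HH.c, cval_add]
  | inv a iha =>
    simp only [cE, ← iha]
    simp only [eval, algH, HH.c]

lemma eval_algH_v {r : ℕ} (x : ℕ → HH r) (t : T) (y : YY r) :
    (eval (algH r) x t : HH r).v y = vE (fun n => (x n).c y) (fun n => (x n).v y) t := by
  induction t with
  | var n => simp [eval, vE]
  | const g => simp [eval, vE, algH]
  | one => simp [eval, vE, algH]
  | mul a b iha ihb =>
    simp only [vE, ← iha, ← ihb, ← eval_algH_c]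
    simp only [eval, algH]
  | inv a iha =>
    simp only [vE, ← iha, ← eval_algH_c]
    simp only [eval, algH]

lemma eval_algH_p {r : ℕ} (x : ℕ → HH r) (t : T) (y : YY r) :
    (eval (algH r) x t : HH r).p y =
      pE (fun n => (x n).c y) (fun n => (x n).v y) (fun n => (x n).p y) GG.p t := by
  induction t with
  | var n => simp [eval, pE]
  | const g => simp [eval, pE, algH]
  | one => simp [eval, pE, algH]
  | mul a b iha ihb =>
    simp only [pE, ← iha, ← ihb, ← eval_algH_c, ← eval_algH_v]
    simp only [eval, algH]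
  | inv a iha =>
    simp only [pE, ← iha, ← eval_algH_c, ← eval_algH_v]
    simp only [eval, algH]

lemma eval_algH_q {r : ℕ} (x : ℕ → HH r) (t : T) (y : YY r) :
    (eval (algH r) x t : HH r).q y =
      pE (fun n => (x n).c y) (fun n => (x n).v y) (fun n => (x n).q y) GG.q t := by
  induction t with
  | var n => simp [eval, pE]
  | const g => simp [eval, pE, algH]
  | one => simp [eval, pE, algH]
  | mul a b iha ihb =>
    simp only [pE, ← iha, ← ihb, ← eval_algH_c, ← eval_algH_v]
    simp only [eval, algH]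
  | inv a iha =>
    simp only [pE, ← iha, ← eval_algH_c, ← eval_algH_v]
    simp only [eval, algH]

lemma eval_algH_z {r : ℕ} (x : ℕ → HH r) (t : T) :
    (eval (algH r) x t : HH r).z =
      ∑ y, zE NN (fun n => (x n).c y) (fun n => (x n).v y) (fun n => (x n).p y) GG.p
        (fun n => (x n).q y) GG.q t + nE (fun n => (x n).z) 0 t := by
  induction t with
  | var n => simp [eval, zE, nE]
  | const g => simp [eval, zE, nE, algH]
  | one => simp [eval, zE, nE, algH]
  | mul a b iha ihb =>
    have h1 : (eval (algH r) x (.mul a b) : HH r).z = (eval (algH r) x a : HH r).z +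
      (eval (algH r) x b : HH r).z + ∑ y, pair (NN ((eval (algH r) x a : HH r).p y))
        (act ((eval (algH r) x a : HH r).v y) ((eval (algH r) x a : HH r).c y)
          ((eval (algH r) x b : HH r).q y)) := rfl
    rw [h1, iha, ihb]
    simp only [zE, nE, eval_algH_p, eval_algH_q, eval_algH_c, eval_algH_v,
      Finset.sum_add_distrib]
    ring
  | inv a iha =>
    have h1 : (eval (algH r) x (.inv a) : HH r).z = (eval (algH r) x a : HH r).z +
      ∑ y, pair (NN ((eval (algH r) x a : HH r).p y))
          ((eval (algH r) x a : HH r).q y) := rfl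
    rw [h1, iha]
    simp only [zE, nE, eval_algH_p, eval_algH_q, Finset.sum_add_distrib]
    ring


/-! ### The key property of pairs of functions of the `v`-components -/

/-- `f1` is obtained from `f0` by averaging over the second coordinate, up to constants,
in each variable separately -/
def Good (f0 f1 : (ℕ → V) → ZMod 2) : Prop :=
  ∀ (v : ℕ → V) (i : ℕ) (x : V), f1 v + f1 (Function.update v i x) =
    ∑ w : ZMod 3, (f0 (Function.update v i (v i + (0, w))) +
      f0 (Function.update v i (x + (0, w))))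

lemma Good.add {f0 f1 g0 g1 : (ℕ → V) → ZMod 2} (hf : Good f0 f1) (hg : Good g0 g1) :
    Good (fun v => f0 v + g0 v) (fun v => f1 v + g1 v) := by
  intro v i x
  have h1 := hf v i x
  have h2 := hg v i x
  calc f1 v + g1 v + (f1 (Function.update v i x) + g1 (Function.update v i x))
      = (f1 v + f1 (Function.update v i x)) + (g1 v + g1 (Function.update v i x)) := by ring
    _ = _ := by
      rw [h1, h2, ← Finset.sum_add_distrib]
      refine Finset.sum_congr rfl (fun w _ => ?_)
      ring

lemma Good.zero : Good (fun _ => 0) (fun _ => 0) := by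
  intro v i x
  simp

/-- affine functions of the `v`-components with scalar coefficients -/
def IsLin (L : (ℕ → V) → V) : Prop :=
  ∀ i, ∃ κ : ZMod 3, ∀ (v : ℕ → V) (x : V), L (Function.update v i x) = L v + κ • (x - v i)

lemma IsLin.proj (n : ℕ) : IsLin (fun v => v n) := by
  intro i
  by_cases h : n = i
  · subst h
    exact ⟨1, fun v x => by simp⟩
  · exact ⟨0, fun v x => by simp [Function.update_of_ne h]⟩

lemma IsLin.const (a : V) : IsLin (fun _ => a) := fun i => ⟨0, fun v x => by simp⟩

lemma IsLin.add {L L' : (ℕ → V) → V} (h : IsLin L) (h' : IsLin L') :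
    IsLin (fun v => L v + L' v) := by
  intro i
  obtain ⟨κ, hκ⟩ := h i
  obtain ⟨κ', hκ'⟩ := h' i
  refine ⟨κ + κ', fun v x => ?_⟩
  simp only [hκ, hκ', add_smul]
  abel

lemma IsLin.smul {L : (ℕ → V) → V} (h : IsLin L) (a : ZMod 3) :
    IsLin (fun v => a • L v) := by
  intro i
  obtain ⟨κ, hκ⟩ := h i
  refine ⟨a * κ, fun v x => ?_⟩
  simp only [hκ, smul_add, mul_smul]

lemma IsLin.neg {L : (ℕ → V) → V} (h : IsLin L) : IsLin (fun v => -L v) := by
  intro i
  obtain ⟨κ, hκ⟩ := h i
  refine ⟨-κ, fun v x => ?_⟩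
  simp only [hκ, neg_add, neg_smul]

lemma isLin_vE (s : ℕ → ZMod 2) (t : T) : IsLin (fun v => vE s v t) := by
  induction t with
  | var n => exact IsLin.proj n
  | const g => exact IsLin.const _
  | one => exact IsLin.const _
  | mul a b iha ihb => exact iha.add (ihb.smul _)
  | inv a iha => exact (iha.smul _).neg

/-- `P`-valued functions which are sums of translates -/
inductive PForm : ((ℕ → V) → P) → Prop
  | zero : PForm (fun _ => 0)
  | add {f g : (ℕ → V) → P} : PForm f → PForm g → PForm (fun v => f v + g v)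
  | tr (L : (ℕ → V) → V) (hL : IsLin L) (q : P) : PForm (fun v => act (L v) 0 q)

lemma PForm.act {f : (ℕ → V) → P} (hf : PForm f) (L : (ℕ → V) → V) (hL : IsLin L)
    (c : ZMod 2) : PForm (fun v => MixedNoFiniteBasis.act (L v) c (f v)) := by
  induction hf with
  | zero => exact PForm.zero
  | add hf hg ihf ihg => exact PForm.add ihf ihg
  | tr L' hL' q =>
    have h : (fun v => MixedNoFiniteBasis.act (L v) c (MixedNoFiniteBasis.act (L' v) 0 q)) =
        fun v => MixedNoFiniteBasis.act (L v + sg c • L' v) 0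
          (MixedNoFiniteBasis.act 0 c q) := by
      funext v
      rw [act_act, act_act]
      simp
    rw [h]
    exact PForm.tr _ (hL.add (hL'.smul _)) _

lemma pForm_pE (s : ℕ → ZMod 2) (X0 : GG → P) (t : T) :
    PForm (fun v => pE s v 0 X0 t) := by
  induction t with
  | var n => exact PForm.zero
  | const g =>
    have h := PForm.tr (fun _ => 0) (IsLin.const 0) (X0 g)
    simp only [act_one] at h
    exact h
  | one => exact PForm.zero
  | mul a b iha ihb => exact iha.add (ihb.act _ (isLin_vE s a) _)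
  | inv a iha => exact iha.act _ ((isLin_vE s a).smul _).neg _

lemma good_elem (L L' : (ℕ → V) → V) (hL : IsLin L) (hL' : IsLin L') (q q' : P) :
    Good (fun v => pair (act (L v) 0 q) (act (L' v) 0 q'))
      (fun v => pair (NN (act (L v) 0 q)) (act (L' v) 0 q')) := by
  have key0 : ∀ v, pair (act (L v) 0 q) (act (L' v) 0 q') =
      pair q (act (L' v - L v) 0 q') := by
    intro v
    rw [← pair_act (-(L v)) 0 (act (L v) 0 q), act_act, act_act]
    simp [sg_zero, act_one, sub_eq_neg_add]
  have key1 : ∀ v, pair (NN (act (L v) 0 q)) (act (L' v) 0 q') =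
      pair q (NN (act (L' v - L v) 0 q')) := by
    intro v
    rw [NN_act, ← pair_act (-(L v)) 0 (act (L v) 0 (NN q)), act_act, act_act, ← pair_NN]
    simp [sg_zero, act_one, sub_eq_neg_add]
  simp only [key0, key1]
  have hK : IsLin (fun v => L' v - L v) := by
    have := hL'.add hL.neg
    simpa only [sub_eq_add_neg] using this
  generalize hKd : (fun v => L' v - L v) = K at hK
  have hKd' : ∀ v, L' v - L v = K v := fun v => congrFun hKd v
  simp only [hKd']
  intro v i x
  obtain ⟨κ, hκ⟩ := hK i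
  have hsum : ∀ u : V, (κ = 1 ∨ κ = -1) →
      ∑ w : ZMod 3, pair q (act (K v + κ • (u + (0, w) - v i)) 0 q') =
        pair q (NN (act (K v + κ • (u - v i)) 0 q')) := by
    intro u h
    have hκκ : κ * κ = 1 := by rcases h with h | h <;> subst h <;> decide
    rw [NN_eq]
    have hps : pair q (∑ w : ZMod 3, act (0, w) 0 (act (K v + κ • (u - v i)) 0 q')) =
        ∑ w : ZMod 3, pair q (act (0, w) 0 (act (K v + κ • (u - v i)) 0 q')) := by
      simp only [pair, Finset.sum_apply, Finset.mul_sum]
      rw [Finset.sum_comm]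
    rw [hps]
    refine Fintype.sum_equiv (sgEquiv κ hκκ) _ _ (fun w => ?_)
    rw [act_act]
    congr 2
    simp only [sgEquiv, Equiv.coe_fn_mk, sg_zero, one_smul]
    ext
    · simp
    · simp
      ring
  have hcase : ∀ κ : ZMod 3, κ = 0 ∨ (κ = 1 ∨ κ = -1) := by decide
  simp only [hκ]
  rcases hcase κ with h | h
  · subst h
    simp [two_eq]
  · rw [Finset.sum_add_distrib, hsum x h, hsum (v i) h, sub_self, smul_zero, add_zero]


lemma good_pair {f g : (ℕ → V) → P} (hf : PForm f) (hg : PForm g) :
    Good (fun v => pair (f v) (g v)) (fun v => pair (NN (f v)) (g v)) := by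
  induction hf with
  | zero =>
    have h : NN 0 = 0 := by
      funext x
      simp [NN]
    simp only [h, pair_zero_left]
    exact Good.zero
  | add hf1 hf2 ih1 ih2 =>
    simp only [NN_add, pair_add_left]
    exact ih1.add ih2
  | tr L hL q =>
    induction hg with
    | zero =>
      simp only [pair_zero_right]
      exact Good.zero
    | add hg1 hg2 ih1 ih2 =>
      simp only [pair_add_right]
      exact ih1.add ih2
    | tr L' hL' q' => exact good_elem L L' hL hL' q q'

lemma good_zE (s : ℕ → ZMod 2) (X0 Y0 : GG → P) (t : T) :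
    Good (fun v => zE id s v 0 X0 0 Y0 t) (fun v => zE NN s v 0 X0 0 Y0 t) := by
  induction t with
  | var n => exact Good.zero
  | const g => exact Good.zero
  | one => exact Good.zero
  | mul a b iha ihb =>
    exact (iha.add ihb).add (good_pair (pForm_pE s X0 a)
      ((pForm_pE s Y0 b).act _ (isLin_vE s a) _))
  | inv a iha =>
    exact iha.add (good_pair (pForm_pE s X0 a) (pForm_pE s Y0 a))

/-! ### Terms in few variables -/

def Below (k : ℕ) : T → Prop
  | .var n => n < k
  | .const _ => True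
  | .one => True
  | .mul a b => Below k a ∧ Below k b
  | .inv a => Below k a

lemma below_mono {k l : ℕ} (h : k ≤ l) (t : T) (ht : Below k t) : Below l t := by
  induction t with
  | var n => exact lt_of_lt_of_le ht h
  | const g => trivial
  | one => trivial
  | mul a b iha ihb => exact ⟨iha ht.1, ihb ht.2⟩
  | inv a iha => exact iha ht

lemma exists_below (t : T) : ∃ k, Below k t := by
  induction t with
  | var n => exact ⟨n + 1, Nat.lt_succ_self n⟩
  | const g => exact ⟨0, trivial⟩
  | one => exact ⟨0, trivial⟩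
  | mul a b iha ihb =>
    obtain ⟨k, hk⟩ := iha
    obtain ⟨l, hl⟩ := ihb
    exact ⟨max k l, below_mono (le_max_left _ _) _ hk, below_mono (le_max_right _ _) _ hl⟩
  | inv a iha => exact iha

lemma cE_congr {k : ℕ} {s s' : ℕ → ZMod 2} (hs : ∀ n < k, s n = s' n) (t : T)
    (ht : Below k t) : cE s t = cE s' t := by
  induction t with
  | var n => exact hs n ht
  | const g => rfl
  | one => rfl
  | mul a b iha ihb => simp only [cE, iha ht.1, ihb ht.2]
  | inv a iha => simp only [cE, iha ht]

lemma vE_congr {k : ℕ} {s s' : ℕ → ZMod 2} {v v' : ℕ → V} (hs : ∀ n < k, s n = s' n)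
    (hv : ∀ n < k, v n = v' n) (t : T) (ht : Below k t) : vE s v t = vE s' v' t := by
  induction t with
  | var n => exact hv n ht
  | const g => rfl
  | one => rfl
  | mul a b iha ihb => simp only [vE, iha ht.1, ihb ht.2, cE_congr hs a ht.1]
  | inv a iha => simp only [vE, iha ht, cE_congr hs a ht]

lemma pE_congr {k : ℕ} {s s' : ℕ → ZMod 2} {v v' : ℕ → V} (hs : ∀ n < k, s n = s' n)
    (hv : ∀ n < k, v n = v' n) (X0 : GG → P) (t : T) (ht : Below k t) :
    pE s v 0 X0 t = pE s' v' 0 X0 t := by
  induction t with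
  | var n => rfl
  | const g => rfl
  | one => rfl
  | mul a b iha ihb =>
    simp only [pE, iha ht.1, ihb ht.2, cE_congr hs a ht.1, vE_congr hs hv a ht.1]
  | inv a iha => simp only [pE, iha ht, cE_congr hs a ht, vE_congr hs hv a ht]

lemma zE_congr {k : ℕ} {s s' : ℕ → ZMod 2} {v v' : ℕ → V} (hs : ∀ n < k, s n = s' n)
    (hv : ∀ n < k, v n = v' n) (N : P → P) (X0 Y0 : GG → P) (t : T) (ht : Below k t) :
    zE N s v 0 X0 0 Y0 t = zE N s' v' 0 X0 0 Y0 t := by
  induction t with
  | var n => rfl
  | const g => rfl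
  | one => rfl
  | mul a b iha ihb =>
    simp only [zE, iha ht.1, ihb ht.2, cE_congr hs a ht.1, vE_congr hs hv a ht.1,
      pE_congr hs hv X0 a ht.1, pE_congr hs hv Y0 b ht.2]
  | inv a iha =>
    simp only [zE, iha ht, pE_congr hs hv X0 a ht, pE_congr hs hv Y0 a ht]

/-! ### Claim 1: `H_r` satisfies all mixed identities of `GG` in fewer than `r` variables -/

lemma id_components {t u : T} (h : IsMixedIdentity GG (t, u)) (s : ℕ → ZMod 2) (v : ℕ → V)
    (X Y : ℕ → P) (Z : ℕ → ZMod 2) :
    pE s v X GG.p t = pE s v X GG.p u ∧ pE s v Y GG.q t = pE s v Y GG.q u ∧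
    zE id s v X GG.p Y GG.q t + nE Z GG.z t = zE id s v X GG.p Y GG.q u + nE Z GG.z u ∧
    vE s v t = vE s v u ∧ cE s t = cE s u := by
  have h1 := h (fun n => (⟨X n, Y n, Z n, v n, s n⟩ : GG))
  rw [eval_groupStar, eval_groupStar] at h1
  exact ⟨congrArg GG.p h1, congrArg GG.q h1, congrArg GG.z h1, congrArg GG.v h1,
    congrArg GG.c h1⟩

lemma nE_eq {t u : T} (h : IsMixedIdentity GG (t, u)) (Z : ℕ → ZMod 2) :
    nE Z 0 t = nE Z 0 u := by
  have h1 := (id_components h 0 0 0 0 Z).2.2.1
  have h2 := (id_components h 0 0 0 0 0).2.2.1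
  have h3 := nE_add Z 0 0 GG.z t
  have h4 := nE_add Z 0 0 GG.z u
  simp only [add_zero, zero_add] at h3 h4
  rw [h3, h4] at h1
  linear_combination h1 - h2

/-- the difference of the bilinear parts of the two sides -/
def DD (N : P → P) (t u : T) (s : ℕ → ZMod 2) (v : ℕ → V) (X : ℕ → P) (X0 : GG → P)
    (Y : ℕ → P) (Y0 : GG → P) : ZMod 2 :=
  zE N s v X X0 Y Y0 t + zE N s v X X0 Y Y0 u

lemma DD_const {t u : T} (h : IsMixedIdentity GG (t, u)) (s : ℕ → ZMod 2) (v : ℕ → V)
    (X Y : ℕ → P) :
    DD id t u s v X GG.p Y GG.q = nE 0 GG.z t + nE 0 GG.z u := by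
  have h1 := (id_components h s v X Y 0).2.2.1
  unfold DD
  have h2 := two_eq (nE 0 GG.z t)
  have h3 := two_eq (zE id s v X GG.p Y GG.q u)
  linear_combination h1 + h3 - h2

lemma DD_add_left (t u : T) (s : ℕ → ZMod 2) (v : ℕ → V) (X X' : ℕ → P) (X0 X0' : GG → P)
    (Y : ℕ → P) (Y0 : GG → P) :
    DD id t u s v (X + X') (X0 + X0') Y Y0 =
      DD id t u s v X X0 Y Y0 + DD id t u s v X' X0' Y Y0 := by
  unfold DD
  rw [zE_add_left id (fun _ _ => rfl), zE_add_left id (fun _ _ => rfl)]
  ring

lemma DD_add_right (t u : T) (s : ℕ → ZMod 2) (v : ℕ → V) (X : ℕ → P) (X0 : GG → P)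
    (Y Y' : ℕ → P) (Y0 Y0' : GG → P) :
    DD id t u s v X X0 (Y + Y') (Y0 + Y0') =
      DD id t u s v X X0 Y Y0 + DD id t u s v X X0 Y' Y0' := by
  unfold DD
  rw [zE_add_right, zE_add_right]
  ring

lemma DD_var_left {t u : T} (h : IsMixedIdentity GG (t, u)) (s : ℕ → ZMod 2) (v : ℕ → V)
    (X Y : ℕ → P) : DD id t u s v X 0 Y GG.q = 0 := by
  have h1 := DD_add_left t u s v X 0 0 GG.p Y GG.q
  rw [add_zero, zero_add, DD_const h, DD_const h] at h1
  linear_combination -h1

lemma DD_var_right {t u : T} (h : IsMixedIdentity GG (t, u)) (s : ℕ → ZMod 2) (v : ℕ → V)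
    (X Y : ℕ → P) : DD id t u s v X GG.p Y 0 = 0 := by
  have h1 := DD_add_right t u s v X GG.p Y 0 0 GG.q
  rw [add_zero, zero_add, DD_const h, DD_const h] at h1
  linear_combination -h1

lemma DD_var_var {t u : T} (h : IsMixedIdentity GG (t, u)) (s : ℕ → ZMod 2) (v : ℕ → V)
    (X Y : ℕ → P) : DD id t u s v X 0 Y 0 = 0 := by
  have h1 := DD_add_right t u s v X 0 Y 0 0 GG.q
  rw [add_zero, zero_add, DD_var_left h, DD_var_left h] at h1
  linear_combination -h1

/-- the value of the difference in `H_r` at a point only depends on the constants -/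
lemma DD_NN {t u : T} (h : IsMixedIdentity GG (t, u)) (s : ℕ → ZMod 2) (v : ℕ → V)
    (X Y : ℕ → P) :
    DD NN t u s v X GG.p Y GG.q = DD NN t u s v 0 GG.p 0 GG.q := by
  have hz : (fun n : ℕ => NN ((0 : ℕ → P) n)) = 0 := by
    funext n x
    simp [NN]
  have hz' : (fun g : GG => NN ((0 : GG → P) g)) = 0 := by
    funext n x
    simp [NN]
  have hL : ∀ X X0 Y Y0, DD NN t u s v X X0 Y Y0 =
      DD id t u s v (fun n => NN (X n)) (fun g => NN (X0 g)) Y Y0 := by
    intro X X0 Y Y0
    unfold DD
    rw [zE_NN_left, zE_NN_left]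
  have hR : ∀ X X0 Y Y0, DD NN t u s v X X0 Y Y0 =
      DD id t u s v X X0 (fun n => NN (Y n)) (fun g => NN (Y0 g)) := by
    intro X X0 Y Y0
    unfold DD
    rw [zE_NN_right, zE_NN_right]
  have h1 := DD_add_left t u s v (fun n => NN (X n)) 0 0 (fun g => NN (GG.p g)) Y GG.q
  have h2 := DD_add_right t u s v 0 (fun g => NN (GG.p g)) Y 0 0 GG.q
  rw [add_zero, zero_add] at h1 h2
  have h3 := hL 0 GG.p Y 0
  have h4 := hR 0 GG.p Y 0
  have h5 := hL 0 GG.p 0 GG.q
  rw [hz] at h3 h5
  rw [hz'] at h4
  rw [DD_var_right h] at h4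
  rw [hL, h1, DD_var_left h, h2, ← h3, h4, ← h5]
  ring

lemma DD_update {t u : T} (h : IsMixedIdentity GG (t, u)) (s : ℕ → ZMod 2) (v : ℕ → V)
    (i : ℕ) (x : V) :
    DD NN t u s (Function.update v i x) 0 GG.p 0 GG.q = DD NN t u s v 0 GG.p 0 GG.q := by
  have hg := ((good_zE s GG.p GG.q t).add (good_zE s GG.p GG.q u)) v i x
  have hc : ∀ v', zE id s v' 0 GG.p 0 GG.q t + zE id s v' 0 GG.p 0 GG.q u =
      nE 0 GG.z t + nE 0 GG.z u := fun v' => DD_const h s v' 0 0
  simp only [hc, two_eq, Finset.sum_const_zero] at hg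
  unfold DD
  have h2 := two_eq (zE NN s v 0 GG.p 0 GG.q t + zE NN s v 0 GG.p 0 GG.q u)
  linear_combination hg - h2

lemma DD_zero {t u : T} (h : IsMixedIdentity GG (t, u)) (s : ℕ → ZMod 2) (v : ℕ → V)
    {k : ℕ} (ht : Below k t) (hu : Below k u) :
    DD NN t u s v 0 GG.p 0 GG.q = DD NN t u s 0 0 GG.p 0 GG.q := by
  have hj : ∀ j : ℕ, DD NN t u s (fun n => if n < j then 0 else v n) 0 GG.p 0 GG.q =
      DD NN t u s v 0 GG.p 0 GG.q := by
    intro j
    induction j with
    | zero => simp
    | succ j ih =>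
      rw [← ih, ← DD_update h s (fun n => if n < j then 0 else v n) j 0]
      congr 1
      funext n
      by_cases hn : n = j
      · subst hn
        simp
      · rw [Function.update_of_ne hn]
        by_cases hn' : n < j
        · simp [hn', Nat.lt_succ_of_lt hn']
        · have : ¬ n < j + 1 := by omega
          simp [hn', this]
  rw [← hj k]
  unfold DD
  rw [zE_congr (s := s) (s' := s) (v := fun n => if n < k then 0 else v n) (v' := 0)
      (fun n _ => rfl) (fun n hn => by simp [hn]) NN GG.p GG.q t ht,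
    zE_congr (s := s) (s' := s) (v := fun n => if n < k then 0 else v n) (v' := 0)
      (fun n _ => rfl) (fun n hn => by simp [hn]) NN GG.p GG.q u hu]

/-- fewer than `r` vectors of `F_2^r` have a common nonzero orthogonal vector -/
lemma exists_period {k r : ℕ} (hkr : k < r) (l : ℕ → YY r) :
    ∃ y0 : YY r, y0 ≠ 0 ∧ ∀ n < k, ∑ j, l n j * y0 j = 0 := by
  let f : (Fin r → ZMod 2) →ₗ[ZMod 2] (Fin k → ZMod 2) :=
    Matrix.mulVecLin (Matrix.of (fun (i : Fin k) (j : Fin r) => l i j))
  have hf : LinearMap.ker f ≠ ⊥ := by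
    apply LinearMap.ker_ne_bot_of_finrank_lt
    simpa using hkr
  obtain ⟨y0, hy0, hne⟩ := (Submodule.ne_bot_iff _).1 hf
  refine ⟨y0, hne, fun n hn => ?_⟩
  have h1 : f y0 ⟨n, hn⟩ = 0 := by
    rw [LinearMap.mem_ker.1 hy0]
    rfl
  simpa [f, Matrix.mulVec, dotProduct] using h1

lemma cval_inj {r : ℕ} {e e' : ZMod 2} {l l' : YY r} (h : ∀ y, cval e l y = cval e' l' y) :
    e = e' ∧ l = l' := by
  have h0 : e = e' := by
    have := h 0
    simpa [cval] using this
  refine ⟨h0, ?_⟩
  funext j
  have h1 := h (Pi.single j 1)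
  subst h0
  simpa [cval, Pi.single_apply] using h1

lemma claim1_aux {k r : ℕ} (hkr : k < r) {t u : T} (h : IsMixedIdentity GG (t, u))
    (ht : Below k t) (hu : Below k u) (x : ℕ → HH r) :
    (eval (algH r) x t : HH r) = eval (algH r) x u := by
  have hc : ∀ y, (eval (algH r) x t : HH r).c y = (eval (algH r) x u : HH r).c y := by
    intro y
    rw [eval_algH_c, eval_algH_c]
    exact (id_components h _ 0 0 0 0).2.2.2.2
  have hel := cval_inj hc
  apply HH.ext
  · funext y
    rw [eval_algH_p, eval_algH_p]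
    exact (id_components h _ _ _ 0 0).1
  · funext y
    rw [eval_algH_q, eval_algH_q]
    exact (id_components h _ _ 0 _ 0).2.1
  · rw [eval_algH_z, eval_algH_z, nE_eq h]
    congr 1
    rw [← sub_eq_zero, sub_eq_add_neg, ZMod.neg_eq_self_mod_two, ← Finset.sum_add_distrib]
    obtain ⟨y0, hy0, hyk⟩ := exists_period hkr (fun n => (x n).l)
    have hD : ∀ y : YY r, zE NN (fun n => (x n).c y) (fun n => (x n).v y) (fun n => (x n).p y)
        GG.p (fun n => (x n).q y) GG.q t + zE NN (fun n => (x n).c y) (fun n => (x n).v y)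
        (fun n => (x n).p y) GG.p (fun n => (x n).q y) GG.q u =
        DD NN t u (fun n => (x n).c y) 0 0 GG.p 0 GG.q := by
      intro y
      have h1 := DD_NN h (fun n => (x n).c y) (fun n => (x n).v y) (fun n => (x n).p y)
        (fun n => (x n).q y)
      rw [DD_zero h _ _ ht hu] at h1
      exact h1
    simp only [hD]
    refine Finset.sum_involution (fun y _ => y + y0) ?_ ?_ ?_ ?_
    · intro y _
      have hs : ∀ n < k, (x n).c (y + y0) = (x n).c y := by
        intro n hn
        have := hyk n hn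
        simp only [HH.c, cval, Pi.add_apply, mul_add, Finset.sum_add_distrib, this, add_zero]
      unfold DD
      rw [zE_congr (v' := 0) hs (fun _ _ => rfl) NN GG.p GG.q t ht,
        zE_congr (v' := 0) hs (fun _ _ => rfl) NN GG.p GG.q u hu]
      exact two_eq _
    · intro y _ _ hyy
      exact hy0 (by simpa using hyy)
    · intro y _
      exact Finset.mem_univ _
    · intro y _
      funext j
      simp only [Pi.add_apply]
      have := two_eq (y0 j)
      linear_combination this
  · funext y
    rw [eval_algH_v, eval_algH_v]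
    exact (id_components h _ _ 0 0 0).2.2.2.1
  · exact hel.1
  · exact hel.2

theorem claim1 {k r : ℕ} (hkr : k < r) {t u : T} (h : IsMixedIdentity GG (t, u))
    (ht : Below k t) (hu : Below k u) : Satisfies (algH r) (t, u) :=
  fun x => claim1_aux hkr h ht hu x

/-! ### Claim 2: an identity of `GG` which fails in `H_r` -/

def gV : GG := ⟨0, 0, 0, (1, 0), 0⟩
def gD : GG := ⟨Pi.single 0 1, 0, 0, 0, 0⟩
def gE : GG := ⟨0, Pi.single (1, 1) 1, 0, 0, 0⟩

/-- `u_0 = v`, `u_{i+1} = (u_i · x_i u_i x_i⁻¹)⁻¹` -/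
def uT : ℕ → T
  | 0 => .const gV
  | i + 1 => .inv (.mul (uT i) (.mul (.mul (.var i) (uT i)) (.inv (.var i))))

/-- `u_r d u_r⁻¹` -/
def dT (r : ℕ) : T := .mul (.mul (uT r) (.const gD)) (.inv (uT r))

def badL (r : ℕ) : T := .mul (dT r) (.const gE)
def badR (r : ℕ) : T := .mul (.const gE) (dT r)

lemma cE_uT (s : ℕ → ZMod 2) (r : ℕ) : cE s (uT r) = 0 := by
  induction r with
  | zero => rfl
  | succ r ih =>
    simp only [uT, cE, ih, zero_add, add_zero]
    exact two_eq _

lemma vE_uT_succ (s : ℕ → ZMod 2) (v : ℕ → V) (r : ℕ) :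
    vE s v (uT (r + 1)) = -(vE s v (uT r) + sg (s r) • vE s v (uT r)) := by
  simp only [uT, vE, cE, cE_uT, sg_zero, one_smul, add_zero, two_eq]
  rw [smul_neg, smul_smul, sg_mul_self, one_smul]
  abel

lemma vE_uT_mem (s : ℕ → ZMod 2) (v : ℕ → V) (r : ℕ) :
    vE s v (uT r) = 0 ∨ vE s v (uT r) = (1, 0) := by
  induction r with
  | zero => exact Or.inr rfl
  | succ r ih =>
    rw [vE_uT_succ]
    rcases ih with h | h
    · left
      rw [h]
      simp
    · rw [h]
      generalize s r = a
      revert a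
      decide

lemma vE_uT_one (s : ℕ → ZMod 2) (v : ℕ → V) (r : ℕ) (hs : ∀ n < r, s n = 0) :
    vE s v (uT r) = (1, 0) := by
  induction r with
  | zero => rfl
  | succ r ih =>
    rw [vE_uT_succ, ih (fun n hn => hs n (Nat.lt_succ_of_lt hn)), hs r (Nat.lt_succ_self r)]
    decide

lemma vE_uT_zero (s : ℕ → ZMod 2) (v : ℕ → V) (r n : ℕ) (hn : n < r) (hs : s n = 1) :
    vE s v (uT r) = 0 := by
  induction r with
  | zero => omega
  | succ r ih =>
    rw [vE_uT_succ]
    rcases Nat.lt_succ_iff_lt_or_eq.1 hn with h | h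
    · rw [ih h]
      simp
    · subst h
      rw [hs]
      have : sg 1 = -1 := by decide
      rw [this]
      simp

lemma pE_dT (s : ℕ → ZMod 2) (v : ℕ → V) (X : ℕ → P) (X0 : GG → P) (r : ℕ) :
    pE s v X X0 (dT r) = act (vE s v (uT r)) 0 (X0 gD) := by
  have h1 : gD.v = 0 := rfl
  have h2 : gD.c = 0 := rfl
  simp only [dT, pE, vE, cE, cE_uT, sg_zero, one_smul, h1, h2, add_zero]
  rw [act_act]
  simp only [sg_zero, one_smul, add_neg_cancel, add_zero, act_one]
  have := P_two_eq (pE s v X X0 (uT r))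
  rw [show pE s v X X0 (uT r) + act (vE s v (uT r)) 0 (X0 gD) + pE s v X X0 (uT r) =
    (pE s v X X0 (uT r) + pE s v X X0 (uT r)) + act (vE s v (uT r)) 0 (X0 gD) by abel, this,
    zero_add]

lemma vE_dT (s : ℕ → ZMod 2) (v : ℕ → V) (r : ℕ) : vE s v (dT r) = 0 := by
  have h1 : gD.v = 0 := rfl
  have h2 : gD.c = 0 := rfl
  simp [dT, vE, cE, cE_uT, sg_zero, h1, h2]

lemma cE_dT (s : ℕ → ZMod 2) (r : ℕ) : cE s (dT r) = 0 := by
  have h2 : gD.c = 0 := rfl
  simp [dT, cE, cE_uT, h2]

lemma bad_diff (N : P → P) (s : ℕ → ZMod 2) (v : ℕ → V) (X : ℕ → P)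
    (Y : ℕ → P) (r : ℕ) (hN : N 0 = 0) :
    zE N s v X GG.p Y GG.q (badL r) = zE N s v X GG.p Y GG.q (badR r) +
      pair (N (act (vE s v (uT r)) 0 gD.p)) gE.q := by
  have h3 : ∀ Y Y0, pE s v Y Y0 (.const gE) = Y0 gE := fun _ _ => rfl
  have h4 : gE.p = 0 := rfl
  simp only [badL, badR, zE, vE_dT, cE_dT, h3, h4, hN, pair_zero_left, pE_dT, act_one]
  ring

lemma pair_single (a b : V) : pair (act a 0 (Pi.single 0 1)) (Pi.single b 1) =
    if a = b then 1 else 0 := by
  simp only [pair, act, sg_zero, one_smul, Pi.single_apply, mul_ite, mul_one, mul_zero,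
    Finset.sum_ite_eq', Finset.mem_univ, if_true]
  by_cases h : a = b
  · simp [h]
  · have : b - a ≠ 0 := fun h' => h (sub_eq_zero.1 h').symm
    simp [h, this]

lemma cE_bad (s : ℕ → ZMod 2) (r : ℕ) : cE s (badL r) = cE s (badR r) := by
  simp only [badL, badR, cE]
  ring

lemma vE_bad (s : ℕ → ZMod 2) (v : ℕ → V) (r : ℕ) : vE s v (badL r) = vE s v (badR r) := by
  have h1 : gE.v = 0 := rfl
  simp only [badL, badR, vE, vE_dT, h1, smul_zero]

lemma pE_bad (s : ℕ → ZMod 2) (v : ℕ → V) (X : ℕ → P) (X0 : GG → P) (r : ℕ) :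
    pE s v X X0 (badL r) = pE s v X X0 (badR r) := by
  have h1 : gE.v = 0 := rfl
  have h2 : gE.c = 0 := rfl
  simp only [badL, badR, pE, vE_dT, cE_dT, vE, cE, h1, h2, act_one]
  abel

lemma nE_bad (Z : ℕ → ZMod 2) (Z0 : GG → ZMod 2) (r : ℕ) :
    nE Z Z0 (badL r) = nE Z Z0 (badR r) := by
  simp only [badL, badR, nE]
  ring

lemma bad_in_G_aux (r : ℕ) (x : ℕ → GG) :
    (eval (groupStar GG) x (badL r) : GG) = eval (groupStar GG) x (badR r) := by
  rw [eval_groupStar, eval_groupStar, cE_bad, vE_bad, pE_bad, pE_bad, nE_bad,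
    bad_diff id _ _ _ _ _ rfl]
  have h : pair (id (act (vE (fun n => (x n).c) (fun n => (x n).v) (uT r)) 0 gD.p)) gE.q = 0 := by
    have h1 : gD.p = Pi.single 0 1 := rfl
    have h2 : gE.q = Pi.single (1, 1) 1 := rfl
    rw [id, h1, h2, pair_single]
    rcases vE_uT_mem (fun n => (x n).c) (fun n => (x n).v) r with h | h
    · rw [h]
      decide
    · rw [h]
      decide
  rw [h, add_zero]

lemma bad_in_G (r : ℕ) : IsMixedIdentity GG (badL r, badR r) := fun x => bad_in_G_aux r x

lemma pair_eE (p : P) : pair p gE.q = p (1, 1) := by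
  have h2 : gE.q = Pi.single (1, 1) 1 := rfl
  simp only [pair, h2, Pi.single_apply, mul_ite, mul_one, mul_zero, Finset.sum_ite_eq',
    Finset.mem_univ, if_true]

lemma val_one : NN (act (1, 0) 0 gD.p) (1, 1) = 1 := by decide

lemma val_zero : NN (act 0 0 gD.p) (1, 1) = 0 := by decide

lemma bad_not_in_H (r : ℕ) : ¬ Satisfies (algH r) (badL r, badR r) := by
  intro h
  let x : ℕ → HH r := fun n =>
    ⟨0, 0, 0, 0, 0, fun j => if (j : ℕ) = n then 1 else 0⟩
  have h1 : (eval (algH r) x (badL r) : HH r).z = (eval (algH r) x (badR r) : HH r).z :=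
    congrArg HH.z (h x)
  have hNN0 : NN 0 = 0 := by
    funext y
    simp [NN]
  rw [eval_algH_z, eval_algH_z, nE_bad] at h1
  have h2 := add_right_cancel h1
  have h3 : ∀ y : YY r, zE NN (fun n => (x n).c y) (fun n => (x n).v y) (fun n => (x n).p y) GG.p
        (fun n => (x n).q y) GG.q (badL r) = zE NN (fun n => (x n).c y) (fun n => (x n).v y)
        (fun n => (x n).p y) GG.p (fun n => (x n).q y) GG.q (badR r) +
        pair (NN (act (vE (fun n => (x n).c y) (fun n => (x n).v y) (uT r)) 0 gD.p)) gE.q :=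
    fun y => bad_diff NN _ _ _ _ _ hNN0
  simp only [h3, Finset.sum_add_distrib] at h2
  have h4 : ∑ y : YY r, pair (NN (act (vE (fun n => (x n).c y) (fun n => (x n).v y) (uT r)) 0
      gD.p)) gE.q = 0 := by
    linear_combination h2
  have hxc : ∀ (n : ℕ) (hn : n < r) (y : YY r), (x n).c y = y ⟨n, hn⟩ := by
    intro n hn y
    have : ∀ j : Fin r, ((j : ℕ) = n) = (j = ⟨n, hn⟩) := by
      intro j
      simp [Fin.ext_iff]
    simp [x, HH.c, cval, this]
  have h5 : ∀ y : YY r, pair (NN (act (vE (fun n => (x n).c y) (fun n => (x n).v y) (uT r)) 0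
      gD.p)) gE.q = if y = 0 then 1 else 0 := by
    intro y
    by_cases hy : y = 0
    · rw [vE_uT_one _ _ _ (fun n hn => by rw [hxc n hn, hy]; rfl), if_pos hy, pair_eE]
      exact val_one
    · obtain ⟨j, hj⟩ : ∃ j, y j ≠ 0 := by
        by_contra hcon
        push Not at hcon
        exact hy (funext hcon)
      have hj1 : y j = 1 := by
        have : ∀ a : ZMod 2, a ≠ 0 → a = 1 := by decide
        exact this _ hj
      rw [vE_uT_zero _ _ _ (j : ℕ) j.2 (by rw [hxc _ j.2]; exact hj1), if_neg hy, pair_eE]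
      exact val_zero
  simp only [h5, Finset.sum_ite_eq', Finset.mem_univ, if_true] at h4
  exact one_ne_zero h4

theorem result : ∃ (G : Type) (_ : Group G), Finite G ∧ ¬ MixedFinitelyBased G := by
  refine ⟨GG, inferInstance, inferInstance, ?_⟩
  rintro ⟨S, hfin, hS, hall⟩
  have hk : ∃ k, ∀ e ∈ S, Below k e.1 ∧ Below k e.2 := by
    clear hS hall
    induction S, hfin using Set.Finite.induction_on with
    | empty => exact ⟨0, fun e he => absurd he (Set.notMem_empty e)⟩
    | insert _ _ ih =>
      obtain ⟨k, hk⟩ := ih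
      rename_i e _ _ _
      obtain ⟨k1, hk1⟩ := exists_below e.1
      obtain ⟨k2, hk2⟩ := exists_below e.2
      refine ⟨max k (max k1 k2), fun e' he' => ?_⟩
      rcases Set.mem_insert_iff.1 he' with h | h
      · subst h
        exact ⟨below_mono (by omega) _ hk1, below_mono (by omega) _ hk2⟩
      · exact ⟨below_mono (by omega) _ (hk e' h).1, below_mono (by omega) _ (hk e' h).2⟩
  obtain ⟨k, hk⟩ := hk
  exact bad_not_in_H (k + 1) (hall _ (bad_in_G (k + 1)) (algH (k + 1))
    (fun e he => claim1 (Nat.lt_succ_self k) (hS e he) (hk e he).1 (hk e he).2))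

end Pool.Agent.Results.MP_fd3e90_al.MixedNoFiniteBasis
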